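import Mathlib

/-!
# The lower bound and the passage to the exact value (MP_42cd19_co)
-/

set_option autoImplicit false

namespace Pool.Agent.Helper21.NN

/-- A non-nested matching of the ordered complete graph on `Fin m`: a set of pairwise
vertex-disjoint edges `(i, j)` with `i < j`, no one of which lies strictly inside another. -/
def IsNonNestedMatching {m : ℕ} (S : Finset (Fin m × Fin m)) : Prop :=
  (∀ e ∈ S, e.1 < e.2) ∧
  (∀ e ∈ S, ∀ f ∈ S, e ≠ f → e.1 ≠ f.1 ∧ e.1 ≠ f.2 ∧ e.2 ≠ f.1 ∧ e.2 ≠ f.2) ∧
  (∀ e ∈ S, ∀ f ∈ S, ¬ (e.1 < f.1 ∧ f.2 < e.2))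

/-- Every 2-colouring of the edges of the ordered complete graph `K_m` has a monochromatic
non-nested matching of size `n`. -/
def Arrows (m n : ℕ) : Prop :=
  ∀ col : Fin m → Fin m → Bool, ∃ (b : Bool) (S : Finset (Fin m × Fin m)),
    IsNonNestedMatching S ∧ S.card = n ∧ ∀ e ∈ S, col e.1 e.2 = b

/-- The Ramsey number `f(n)` of the problem: the least `m` with `Arrows m n`. -/
noncomputable def nnRamsey (n : ℕ) : ℕ := sInf {m | Arrows m n}

/-- the property passes to larger complete graphs -/
theorem Arrows.mono {m m' n : ℕ} (h : Arrows m n) (hm : m ≤ m') : Arrows m' n := by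
  intro col
  obtain ⟨b, S, ⟨h1, h2, h3⟩, hc, hcol⟩ :=
    h (fun i j => col (Fin.castLE hm i) (Fin.castLE hm j))
  have hinj : Function.Injective
      (fun e : Fin m × Fin m => (Fin.castLE hm e.1, Fin.castLE hm e.2)) := by
    intro e f hef
    simp only [Prod.mk.injEq, Fin.castLE_inj] at hef
    exact Prod.ext hef.1 hef.2
  refine ⟨b, S.map ⟨_, hinj⟩, ⟨?_, ?_, ?_⟩, by rw [Finset.card_map, hc], ?_⟩
  · intro e he
    simp only [Finset.mem_map, Function.Embedding.coeFn_mk] at he
    obtain ⟨e', he', rfl⟩ := he
    exact h1 e' he'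
  · intro e he f hf hne
    simp only [Finset.mem_map, Function.Embedding.coeFn_mk] at he hf
    obtain ⟨e', he', rfl⟩ := he
    obtain ⟨f', hf', rfl⟩ := hf
    have hne' : e' ≠ f' := fun h => hne (by rw [h])
    have := h2 e' he' f' hf' hne'
    simpa only [ne_eq, Fin.castLE_inj] using this
  · intro e he f hf
    simp only [Finset.mem_map, Function.Embedding.coeFn_mk] at he hf
    obtain ⟨e', he', rfl⟩ := he
    obtain ⟨f', hf', rfl⟩ := hf
    exact h3 e' he' f' hf'
  · intro e he
    simp only [Finset.mem_map, Function.Embedding.coeFn_mk] at he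
    obtain ⟨e', he', rfl⟩ := he
    exact hcol e' he'

/-- a set of pairwise vertex-disjoint edges in a set of `w` vertices has at most `w / 2` edges -/
theorem two_card_le {m : ℕ} (S : Finset (Fin m × Fin m)) (hS : IsNonNestedMatching S)
    (W : Finset (Fin m)) (hW : ∀ e ∈ S, e.1 ∈ W ∧ e.2 ∈ W) : 2 * S.card ≤ W.card := by
  obtain ⟨h1, h2, -⟩ := hS
  have hi1 : Set.InjOn (fun e : Fin m × Fin m => e.1) S := by
    intro e he f hf hef
    by_contra hne
    exact (h2 e he f hf hne).1 hef
  have hi2 : Set.InjOn (fun e : Fin m × Fin m => e.2) S := by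
    intro e he f hf hef
    by_contra hne
    exact (h2 e he f hf hne).2.2.2 hef
  have hdisj : Disjoint (S.image (fun e => e.1)) (S.image (fun e => e.2)) := by
    rw [Finset.disjoint_left]
    intro x hx hx'
    simp only [Finset.mem_image] at hx hx'
    obtain ⟨e, he, rfl⟩ := hx
    obtain ⟨f, hf, hfe⟩ := hx'
    by_cases hef : e = f
    · subst hef
      exact absurd hfe (ne_of_gt (h1 e he))
    · exact (h2 e he f hf hef).2.1 hfe.symm
  have hsub : S.image (fun e => e.1) ∪ S.image (fun e => e.2) ⊆ W := by
    intro x hx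
    simp only [Finset.mem_union, Finset.mem_image] at hx
    rcases hx with ⟨e, he, rfl⟩ | ⟨e, he, rfl⟩
    · exact (hW e he).1
    · exact (hW e he).2
  have := Finset.card_le_card hsub
  rw [Finset.card_union_of_disjoint hdisj, Finset.card_image_of_injOn hi1,
    Finset.card_image_of_injOn hi2] at this
  omega

/-- lower bound: `K_{3n-2}` has a colouring without monochromatic non-nested `n`-matching -/
theorem not_arrows (n m : ℕ) (hn : 1 ≤ n) (hm : m + 2 ≤ 3 * n) : ¬ Arrows m n := by
  intro h
  obtain ⟨b, S, hS, hc, hcol⟩ := h (fun i _ => decide ((i : ℕ) < n - 1))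
  have hi1 : Set.InjOn (fun e : Fin m × Fin m => e.1) S := by
    intro e he f hf hef
    by_contra hne
    exact (hS.2.1 e he f hf hne).1 hef
  cases b with
  | true =>
    have hsub : S.image (fun e => (e.1 : ℕ)) ⊆ Finset.range (n - 1) := by
      intro x hx
      simp only [Finset.mem_image] at hx
      obtain ⟨e, he, rfl⟩ := hx
      have := hcol e he
      simp only [decide_eq_true_eq] at this
      exact Finset.mem_range.2 this
    have h1 := Finset.card_le_card hsub
    rw [Finset.card_image_of_injOn, Finset.card_range] at h1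
    · omega
    · intro e he f hf hef
      exact hi1 he hf (Fin.ext hef)
  | false =>
    have h1 := two_card_le S hS (Finset.univ.filter (fun i : Fin m => n - 1 ≤ (i : ℕ))) (by
      intro e he
      have h2 := hcol e he
      have h3 := hS.1 e he
      simp only [decide_eq_false_iff_not, not_lt] at h2
      simp only [Finset.mem_filter, Finset.mem_univ, true_and]
      exact ⟨h2, h2.trans (by exact_mod_cast h3.le)⟩)
    have h4 : (Finset.univ.filter (fun i : Fin m => n - 1 ≤ (i : ℕ))).card ≤ m - (n - 1) := by
      have : (Finset.univ.filter (fun i : Fin m => n - 1 ≤ (i : ℕ))).image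
          (fun i : Fin m => (i : ℕ)) ⊆ Finset.Ico (n - 1) m := by
        intro x hx
        simp only [Finset.mem_image, Finset.mem_filter, Finset.mem_univ, true_and] at hx
        obtain ⟨i, hi, rfl⟩ := hx
        exact Finset.mem_Ico.2 ⟨hi, i.2⟩
      have h5 := Finset.card_le_card this
      rw [Finset.card_image_of_injective _ Fin.val_injective, Nat.card_Ico] at h5
      exact h5
    omega

/-- the exact value from the upper bound -/
theorem exact (H : ∀ n : ℕ, 1 ≤ n → Arrows (3 * n - 1) n) (n : ℕ) (hn : 1 ≤ n) :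
    (∀ m : ℕ, Arrows m n ↔ 3 * n - 1 ≤ m) ∧ nnRamsey n = 3 * n - 1 := by
  have key : ∀ m : ℕ, Arrows m n ↔ 3 * n - 1 ≤ m := by
    intro m
    constructor
    · intro h
      by_contra hlt
      exact not_arrows n m hn (by omega) h
    · intro h
      exact (H n hn).mono h
  refine ⟨key, ?_⟩
  have : {m | Arrows m n} = Set.Ici (3 * n - 1) := by
    ext m
    exact key m
  rw [nnRamsey, this, csInf_Ici]

end Pool.Agent.Helper21.NN
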