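import Mathlib
import Pool.Agent.Helper40.NF.St

/-!
# The functional identity (module F, MP_42cd19_co)
-/

set_option autoImplicit false

namespace Pool.Agent.Helper40.NF

open Finset

lemma F_loc_erase (F : Finset Pt) (p : Pt) (j : ℕ) :
    loc (F.erase p) j = (loc F j).erase p := by
  simp only [loc]
  ext q
  simp only [mem_filter, mem_erase]
  tauto

lemma F_loc_erase_ne {F : Finset Pt} {p : Pt} {j : ℕ} (h : lab p.2 ≠ j) :
    loc (F.erase p) j = loc F j := by
  rw [F_loc_erase, erase_eq_of_notMem]
  simp [loc, h]

lemma F_mem_loc {F : Finset Pt} {p : Pt} {j : ℕ} : p ∈ loc F j ↔ p ∈ F ∧ lab p.2 = j := by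
  simp [loc]

lemma F_ep_sq (A : Finset ℕ) (F : Finset Pt) (i : ℕ) : ep A F i * ep A F i = 1 := by
  unfold ep
  rw [← pow_add, ← two_mul, pow_mul]
  norm_num

lemma F_ep_le {A : Finset ℕ} {F : Finset Pt} {p : Pt} {j : ℕ} (h : j ≤ lab p.2) :
    ep A (F.erase p) j = ep A F j := by
  unfold ep
  congr 1
  refine sum_congr rfl ?_
  intro i hi
  rw [F_loc_erase_ne]
  have := (mem_filter.1 hi).2
  omega

lemma F_ep_lt {A : Finset ℕ} {F : Finset Pt} {p : Pt} {j : ℕ} (hp : p ∈ F)
    (hA : lab p.2 ∈ A) (h : lab p.2 < j) : ep A (F.erase p) j = - ep A F j := by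
  unfold ep
  have hm : lab p.2 ∈ A.filter (· < j) := mem_filter.2 ⟨hA, h⟩
  rw [← add_sum_erase _ _ hm, ← add_sum_erase (A.filter (· < j)) (fun i => (loc F i).card) hm]
  have h1 : ∑ x ∈ (A.filter (· < j)).erase (lab p.2), (loc (F.erase p) x).card =
      ∑ x ∈ (A.filter (· < j)).erase (lab p.2), (loc F x).card := by
    refine sum_congr rfl ?_
    intro i hi
    rw [F_loc_erase_ne (Ne.symm (mem_erase.1 hi).1)]
  have hpl : p ∈ loc F (lab p.2) := F_mem_loc.2 ⟨hp, rfl⟩
  have h2 : (loc F (lab p.2)).card = (loc (F.erase p) (lab p.2)).card + 1 := by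
    rw [F_loc_erase, card_erase_of_mem hpl]
    have := card_pos.2 ⟨p, hpl⟩
    omega
  rw [h1]
  simp only [h2]
  rw [show (loc (F.erase p) (lab p.2)).card + 1 +
      ∑ x ∈ (A.filter (· < j)).erase (lab p.2), (loc F x).card =
    ((loc (F.erase p) (lab p.2)).card +
      ∑ x ∈ (A.filter (· < j)).erase (lab p.2), (loc F x).card) + 1 by ring, pow_succ]
  ring

open Classical in
/-- the summand of `HF` -/
noncomputable def F_T (u c : ℕ → ℕ → ℚ) (A : Finset ℕ) (F : Finset Pt) (k : ℕ) : ℚ :=
  ep A F k * shs F * Xl u (loc F k) * ∏ i ∈ A.erase k, lam c (loc F i)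

open Classical in
/-- the summand of `XiF` -/
noncomputable def F_X (c : ℕ → ℕ → ℚ) (A : Finset ℕ) (F : Finset Pt) (k l : ℕ) : ℚ :=
  if k < l ∧ Doub A F k l then
    -(ep A F k * ep A F l * shs F *
      (Xl c (loc F k) * El (loc F l) - El (loc F k) * Xl c (loc F l)) *
      ∏ i ∈ (A.erase k).erase l, lam c (loc F i)) else 0

lemma F_prod_erase {A : Finset ℕ} {k l : ℕ} (hk : k ∈ A) (hkl : k ≠ l) (f : ℕ → ℚ) :
    f k * ∏ i ∈ (A.erase k).erase l, f i = ∏ i ∈ A.erase l, f i := by
  have h : (A.erase k).erase l = (A.erase l).erase k := erase_right_comm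
  rw [h, mul_prod_erase _ _ (mem_erase.2 ⟨hkl, hk⟩)]

open Classical in
theorem pf_Fun (hConv : StConv) (hLoc : StLoc) (hSign : StSign) (hLocal : StLocal) : StFun := by
  intro c A K N F hF hcard
  obtain ⟨hL1, hL2, hL3, hL4, hL5⟩ := hLocal
  have hLV : LV A (im F) := hF.2.2.2.1
  have hlabA : ∀ p ∈ F, lab p.2 ∈ A := fun p hp => hLV.1 p.2 (mem_image_of_mem _ hp)
  have hinj : Set.InjOn Prod.fst (F : Set Pt) := fun p hp q hq h => hF.2.2.1 p hp q hq h
  -- validity of a face
  set v : Pt → Prop := fun p => LV A (im (F.erase p)) with hv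
  have hvloc : ∀ p ∈ F, (v p ↔ Ok ((im ((loc F (lab p.2)).erase p)).image lift)) :=
    fun p hp => hLoc A F hLV p hp
  -- local sums
  have hdl : ∀ (φ : Finset Pt → ℚ) (i : ℕ),
      ∑ p ∈ loc F i, (if v p then sg (Prod.fst : Pt → ℕ) (loc F i) p * φ ((loc F i).erase p)
        else 0) = dl φ (loc F i) := by
    intro φ i
    unfold dl
    refine sum_congr rfl ?_
    intro p hp
    obtain ⟨hp1, hp2⟩ := F_mem_loc.1 hp
    have h1 := hvloc p hp1
    rw [hp2] at h1
    by_cases h : v p
    · rw [if_pos h, if_pos (h1.1 h)]
    · rw [if_neg h, if_neg (fun h' => h (h1.2 h'))]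
  -- the contribution of `(i0, k, l)`
  have key : ∀ i0 ∈ A, ∀ k ∈ A, ∀ l ∈ A,
      ∑ p ∈ loc F i0, (if v p then sg (Prod.fst : Pt → ℕ) F p * F_X c A (F.erase p) k l else 0) =
      (if k < l ∧ i0 = k ∧ Sing A F l then F_T one2 c A F l else 0) +
      (if k < l ∧ i0 = l ∧ Sing A F k then F_T one2 c A F k else 0) := by
    intro i0 hi0 k hk l hl
    by_cases hkl : k < l
    swap
    · rw [if_neg (fun h => hkl h.1), if_neg (fun h => hkl h.1), add_zero]
      refine sum_eq_zero ?_
      intro p _
      have hz : F_X c A (F.erase p) k l = 0 := if_neg (fun h => hkl h.1)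
      rw [hz, mul_zero, ite_self]
    have hkl' : k ≠ l := ne_of_lt hkl
    by_cases h1 : i0 = k
    · subst h1
      rw [if_neg (c := i0 < l ∧ i0 = l ∧ Sing A F i0) (fun h => hkl' h.2.1), add_zero]
      have hD : ∀ p ∈ loc F i0, (Doub A (F.erase p) i0 l ↔ Sing A F l) := by
        intro p hp
        obtain ⟨hp1, hp2⟩ := F_mem_loc.1 hp
        have e1 : (loc (F.erase p) i0).card + 1 = (loc F i0).card := by
          rw [F_loc_erase, card_erase_add_one hp]
        have e2 : ∀ j, j ≠ i0 → loc (F.erase p) j = loc F j := by
          intro j hj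
          exact F_loc_erase_ne (by rw [hp2]; exact Ne.symm hj)
        constructor
        · rintro ⟨d1, d2, d3⟩
          rw [e2 l hkl'.symm] at d2
          refine ⟨d2, ?_⟩
          intro i hi hil
          by_cases hii : i = i0
          · subst hii
            omega
          · rw [← e2 i hii]
            exact d3 i hi hii hil
        · rintro ⟨d1, d2⟩
          refine ⟨?_, ?_, ?_⟩
          · have := d2 i0 hi0 hkl'
            omega
          · rw [e2 l hkl'.symm]
            exact d1
          · intro i hi hii hil
            rw [e2 i hii]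
            exact d2 i hi hil
      by_cases hS : Sing A F l
      · rw [if_pos ⟨hkl, rfl, hS⟩]
        have hc3 : (loc F i0).card = 3 := hS.2 i0 hi0 hkl'
        have hterm : ∀ p ∈ loc F i0,
            (if v p then sg (Prod.fst : Pt → ℕ) F p * F_X c A (F.erase p) i0 l else 0) =
            ep A F l * shs F * (∏ i ∈ (A.erase i0).erase l, lam c (loc F i)) *
              El (loc F l) *
              (if v p then sg (Prod.fst : Pt → ℕ) (loc F i0) p * Xl c ((loc F i0).erase p)
                else 0) -
            ep A F l * shs F * (∏ i ∈ (A.erase i0).erase l, lam c (loc F i)) *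
              Xl c (loc F l) *
              (if v p then sg (Prod.fst : Pt → ℕ) (loc F i0) p * El ((loc F i0).erase p)
                else 0) := by
          intro p hp
          obtain ⟨hp1, hp2⟩ := F_mem_loc.1 hp
          by_cases hvp : v p
          · rw [if_pos hvp, if_pos hvp, if_pos hvp, F_X, if_pos ⟨hkl, (hD p hp).2 hS⟩]
            have s1 := hSign A F hlabA hinj p hp1
            rw [hp2] at s1
            rw [F_ep_le (by rw [hp2]), F_ep_lt hp1 (by rw [hp2]; exact hi0) (by rw [hp2]; exact hkl),
              F_loc_erase F p i0, F_loc_erase_ne (j := l) (by rw [hp2]; exact hkl')]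
            have hprod : ∏ i ∈ (A.erase i0).erase l, lam c (loc (F.erase p) i) =
                ∏ i ∈ (A.erase i0).erase l, lam c (loc F i) := by
              refine prod_congr rfl ?_
              intro i hi
              rw [F_loc_erase_ne]
              rw [hp2]
              exact Ne.symm (mem_erase.1 (mem_erase.1 hi).2).1
            rw [hprod]
            have e := F_ep_sq A F i0
            set P := ∏ i ∈ (A.erase i0).erase l, lam c (loc F i)
            have : sg (Prod.fst : Pt → ℕ) F p * -(ep A F i0 * -ep A F l * shs (F.erase p) *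
                (Xl c ((loc F i0).erase p) * El (loc F l) -
                  El ((loc F i0).erase p) * Xl c (loc F l)) * P) =
                (sg (Prod.fst : Pt → ℕ) F p * shs (F.erase p)) * ep A F i0 * ep A F l *
                (Xl c ((loc F i0).erase p) * El (loc F l) -
                  El ((loc F i0).erase p) * Xl c (loc F l)) * P := by ring
            rw [this, s1]
            have : shs F * ep A F i0 * sg (Prod.fst : Pt → ℕ) (loc F i0) p * ep A F i0 *
                ep A F l * (Xl c ((loc F i0).erase p) * El (loc F l) -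
                  El ((loc F i0).erase p) * Xl c (loc F l)) * P =
                (ep A F i0 * ep A F i0) * (shs F * sg (Prod.fst : Pt → ℕ) (loc F i0) p *
                ep A F l * (Xl c ((loc F i0).erase p) * El (loc F l) -
                  El ((loc F i0).erase p) * Xl c (loc F l)) * P) := by ring
            rw [this, e]
            ring
          · rw [if_neg hvp, if_neg hvp, if_neg hvp]
            ring
        rw [sum_congr rfl hterm, sum_sub_distrib, ← mul_sum, ← mul_sum, hdl, hdl,
          hL1 (loc F i0) (hL4 A K N F hF i0 hi0) hc3, mul_zero, sub_zero, F_T]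
        rw [← F_prod_erase hi0 hkl' (fun i => lam c (loc F i))]
        simp only [El, lam]
        ring
      · rw [if_neg (fun h => hS h.2.2)]
        refine sum_eq_zero ?_
        intro p hp
        have hz : F_X c A (F.erase p) i0 l = 0 := if_neg (fun h => hS ((hD p hp).1 h.2))
        rw [hz, mul_zero, ite_self]
    rw [if_neg (c := k < l ∧ i0 = k ∧ Sing A F l) (fun h => h1 h.2.1), zero_add]
    by_cases h2 : i0 = l
    · subst h2
      have hD : ∀ p ∈ loc F i0, (Doub A (F.erase p) k i0 ↔ Sing A F k) := by
        intro p hp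
        obtain ⟨hp1, hp2⟩ := F_mem_loc.1 hp
        have e1 : (loc (F.erase p) i0).card + 1 = (loc F i0).card := by
          rw [F_loc_erase, card_erase_add_one hp]
        have e2 : ∀ j, j ≠ i0 → loc (F.erase p) j = loc F j := by
          intro j hj
          exact F_loc_erase_ne (by rw [hp2]; exact Ne.symm hj)
        constructor
        · rintro ⟨d1, d2, d3⟩
          rw [e2 k hkl'] at d1
          refine ⟨d1, ?_⟩
          intro i hi hik
          by_cases hii : i = i0
          · subst hii
            omega
          · rw [← e2 i hii]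
            exact d3 i hi hik hii
        · rintro ⟨d1, d2⟩
          refine ⟨?_, ?_, ?_⟩
          · rw [e2 k hkl']
            exact d1
          · have := d2 i0 hi0 h1
            omega
          · intro i hi hik hii
            rw [e2 i hii]
            exact d2 i hi hik
      by_cases hS : Sing A F k
      · rw [if_pos ⟨hkl, rfl, hS⟩]
        have hc3 : (loc F i0).card = 3 := hS.2 i0 hi0 h1
        have hterm : ∀ p ∈ loc F i0,
            (if v p then sg (Prod.fst : Pt → ℕ) F p * F_X c A (F.erase p) k i0 else 0) =
            ep A F k * shs F * (∏ i ∈ (A.erase k).erase i0, lam c (loc F i)) *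
              El (loc F k) *
              (if v p then sg (Prod.fst : Pt → ℕ) (loc F i0) p * Xl c ((loc F i0).erase p)
                else 0) -
            ep A F k * shs F * (∏ i ∈ (A.erase k).erase i0, lam c (loc F i)) *
              Xl c (loc F k) *
              (if v p then sg (Prod.fst : Pt → ℕ) (loc F i0) p * El ((loc F i0).erase p)
                else 0) := by
          intro p hp
          obtain ⟨hp1, hp2⟩ := F_mem_loc.1 hp
          by_cases hvp : v p
          · rw [if_pos hvp, if_pos hvp, if_pos hvp, F_X, if_pos ⟨hkl, (hD p hp).2 hS⟩]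
            have s1 := hSign A F hlabA hinj p hp1
            rw [hp2] at s1
            rw [F_ep_le (j := k) (by rw [hp2]; exact hkl.le), F_ep_le (j := i0) (by rw [hp2]),
              F_loc_erase F p i0, F_loc_erase_ne (j := k) (by rw [hp2]; exact Ne.symm hkl')]
            have hprod : ∏ i ∈ (A.erase k).erase i0, lam c (loc (F.erase p) i) =
                ∏ i ∈ (A.erase k).erase i0, lam c (loc F i) := by
              refine prod_congr rfl ?_
              intro i hi
              rw [F_loc_erase_ne]
              rw [hp2]
              exact Ne.symm (mem_erase.1 hi).1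
            rw [hprod]
            have e := F_ep_sq A F i0
            set P := ∏ i ∈ (A.erase k).erase i0, lam c (loc F i)
            have : sg (Prod.fst : Pt → ℕ) F p * -(ep A F k * ep A F i0 * shs (F.erase p) *
                (Xl c (loc F k) * El ((loc F i0).erase p) -
                  El (loc F k) * Xl c ((loc F i0).erase p)) * P) =
                -((sg (Prod.fst : Pt → ℕ) F p * shs (F.erase p)) * ep A F i0 * ep A F k *
                (Xl c (loc F k) * El ((loc F i0).erase p) -
                  El (loc F k) * Xl c ((loc F i0).erase p)) * P) := by ring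
            rw [this, s1]
            have : -(shs F * ep A F i0 * sg (Prod.fst : Pt → ℕ) (loc F i0) p * ep A F i0 *
                ep A F k * (Xl c (loc F k) * El ((loc F i0).erase p) -
                  El (loc F k) * Xl c ((loc F i0).erase p)) * P) =
                -((ep A F i0 * ep A F i0) * (shs F * sg (Prod.fst : Pt → ℕ) (loc F i0) p *
                ep A F k * (Xl c (loc F k) * El ((loc F i0).erase p) -
                  El (loc F k) * Xl c ((loc F i0).erase p)) * P)) := by ring
            rw [this, e]
            ring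
          · rw [if_neg hvp, if_neg hvp, if_neg hvp]
            ring
        rw [sum_congr rfl hterm, sum_sub_distrib, ← mul_sum, ← mul_sum, hdl, hdl,
          hL1 (loc F i0) (hL4 A K N F hF i0 hi0) hc3, mul_zero, sub_zero, F_T]
        have hpe : ∏ i ∈ A.erase k, lam c (loc F i) =
            lam c (loc F i0) * ∏ i ∈ (A.erase k).erase i0, lam c (loc F i) := by
          rw [mul_prod_erase _ (fun i => lam c (loc F i)) (mem_erase.2 ⟨h1, hi0⟩)]
        rw [hpe]
        simp only [El, lam]
        ring
      · rw [if_neg (fun h => hS h.2.2)]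
        refine sum_eq_zero ?_
        intro p hp
        have hz : F_X c A (F.erase p) k i0 = 0 := if_neg (fun h => hS ((hD p hp).1 h.2))
        rw [hz, mul_zero, ite_self]
    · rw [if_neg (c := k < l ∧ i0 = l ∧ Sing A F k) (fun h => h2 h.2.1)]
      -- the label `i0` has four points
      have e2 : ∀ p ∈ loc F i0, ∀ j, j ≠ i0 → loc (F.erase p) j = loc F j := by
        intro p hp j hj
        exact F_loc_erase_ne (by rw [(F_mem_loc.1 hp).2]; exact Ne.symm hj)
      by_cases hQ : (loc F k).card = 2 ∧ (loc F l).card = 2 ∧ (loc F i0).card = 4 ∧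
          ∀ i ∈ A, i ≠ k → i ≠ l → i ≠ i0 → (loc F i).card = 3
      · have hD : ∀ p ∈ loc F i0, Doub A (F.erase p) k l := by
          intro p hp
          refine ⟨?_, ?_, ?_⟩
          · rw [e2 p hp k (Ne.symm h1)]
            exact hQ.1
          · rw [e2 p hp l (Ne.symm h2)]
            exact hQ.2.1
          · intro i hi hik hil
            by_cases hii : i = i0
            · subst hii
              rw [F_loc_erase, card_erase_of_mem hp, hQ.2.2.1]
            · rw [e2 p hp i hii]
              exact hQ.2.2.2 i hi hik hil hii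
        -- common sign of the labels `k`, `l`
        obtain ⟨sk, hsk⟩ : ∃ sk : ℚ, ∀ p ∈ loc F i0, ep A (F.erase p) k = sk := by
          by_cases h : k ≤ i0
          · exact ⟨ep A F k, fun p hp => F_ep_le (by rw [(F_mem_loc.1 hp).2]; exact h)⟩
          · exact ⟨- ep A F k, fun p hp => F_ep_lt (F_mem_loc.1 hp).1
              (by rw [(F_mem_loc.1 hp).2]; exact hi0)
              (by rw [(F_mem_loc.1 hp).2]; omega)⟩
        obtain ⟨sl, hsl⟩ : ∃ sl : ℚ, ∀ p ∈ loc F i0, ep A (F.erase p) l = sl := by
          by_cases h : l ≤ i0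
          · exact ⟨ep A F l, fun p hp => F_ep_le (by rw [(F_mem_loc.1 hp).2]; exact h)⟩
          · exact ⟨- ep A F l, fun p hp => F_ep_lt (F_mem_loc.1 hp).1
              (by rw [(F_mem_loc.1 hp).2]; exact hi0)
              (by rw [(F_mem_loc.1 hp).2]; omega)⟩
        have hi0' : i0 ∈ (A.erase k).erase l := mem_erase.2 ⟨h2, mem_erase.2 ⟨h1, hi0⟩⟩
        have hterm : ∀ p ∈ loc F i0,
            (if v p then sg (Prod.fst : Pt → ℕ) F p * F_X c A (F.erase p) k l else 0) =
            -(sk * sl * shs F * ep A F i0 *
              (Xl c (loc F k) * El (loc F l) - El (loc F k) * Xl c (loc F l)) *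
              ∏ i ∈ ((A.erase k).erase l).erase i0, lam c (loc F i)) *
              (if v p then sg (Prod.fst : Pt → ℕ) (loc F i0) p * lam c ((loc F i0).erase p)
                else 0) := by
          intro p hp
          obtain ⟨hp1, hp2⟩ := F_mem_loc.1 hp
          by_cases hvp : v p
          · rw [if_pos hvp, if_pos hvp, F_X, if_pos ⟨hkl, hD p hp⟩]
            have s1 := hSign A F hlabA hinj p hp1
            rw [hp2] at s1
            rw [hsk p hp, hsl p hp, e2 p hp k (Ne.symm h1), e2 p hp l (Ne.symm h2)]
            have hprod : ∏ i ∈ (A.erase k).erase l, lam c (loc (F.erase p) i) =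
                lam c ((loc F i0).erase p) *
                  ∏ i ∈ ((A.erase k).erase l).erase i0, lam c (loc F i) := by
              rw [← mul_prod_erase _ (fun i => lam c (loc (F.erase p) i)) hi0', F_loc_erase]
              congr 1
              refine prod_congr rfl ?_
              intro i hi
              rw [e2 p hp i (mem_erase.1 hi).1]
            rw [hprod]
            set P := ∏ i ∈ ((A.erase k).erase l).erase i0, lam c (loc F i)
            have : sg (Prod.fst : Pt → ℕ) F p * -(sk * sl * shs (F.erase p) *
                (Xl c (loc F k) * El (loc F l) - El (loc F k) * Xl c (loc F l)) *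
                (lam c ((loc F i0).erase p) * P)) =
                -((sg (Prod.fst : Pt → ℕ) F p * shs (F.erase p)) * (sk * sl) *
                (Xl c (loc F k) * El (loc F l) - El (loc F k) * Xl c (loc F l)) *
                (lam c ((loc F i0).erase p) * P)) := by ring
            rw [this, s1]
            ring
          · rw [if_neg hvp, if_neg hvp, mul_zero]
        rw [sum_congr rfl hterm, ← mul_sum, hdl,
          hL2 c (loc F i0) (hL4 A K N F hF i0 hi0) hQ.2.2.1, mul_zero]
      · refine sum_eq_zero ?_
        intro p hp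
        have hz : F_X c A (F.erase p) k l = 0 := by
          refine if_neg ?_
          rintro ⟨_, d1, d2, d3⟩
          apply hQ
          rw [e2 p hp k (Ne.symm h1)] at d1
          rw [e2 p hp l (Ne.symm h2)] at d2
          refine ⟨d1, d2, ?_, ?_⟩
          · have := d3 i0 hi0 h1 h2
            rw [F_loc_erase] at this
            have h3 := card_erase_add_one hp
            omega
          · intro i hi hik hil hii
            rw [← e2 p hp i hii]
            exact d3 i hi hik hil
        rw [hz, mul_zero, ite_self]
  -- regroup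
  have hL : ev (XiF c A) (bdA A (Finsupp.single F 1)) =
      ∑ p ∈ F, (if v p then sg (Prod.fst : Pt → ℕ) F p * XiF c A (F.erase p) else 0) := by
    rw [bdA, bd, Finsupp.linearCombination_single, one_smul, bdF, map_sum]
    refine sum_congr rfl ?_
    intro p _
    by_cases hvp : v p
    · rw [if_pos hvp, if_pos hvp, ev, Finsupp.linearCombination_single, smul_eq_mul]
    · rw [if_neg hvp, if_neg hvp, map_zero]
  have hX : ∀ G : Finset Pt, XiF c A G = ∑ k ∈ A, ∑ l ∈ A, F_X c A G k l := by
    intro G
    unfold XiF F_X
    rfl
  have hfib : ∑ p ∈ F, (if v p then sg (Prod.fst : Pt → ℕ) F p * XiF c A (F.erase p) else 0) =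
      ∑ i0 ∈ A, ∑ p ∈ loc F i0,
        (if v p then sg (Prod.fst : Pt → ℕ) F p * XiF c A (F.erase p) else 0) := by
    rw [← sum_fiberwise_of_maps_to (g := fun p : Pt => lab p.2) (t := A) hlabA]
    rfl
  rw [hL, hfib]
  have hstep : ∀ i0 ∈ A, ∑ p ∈ loc F i0,
      (if v p then sg (Prod.fst : Pt → ℕ) F p * XiF c A (F.erase p) else 0) =
      ∑ k ∈ A, ∑ l ∈ A,
        ((if k < l ∧ i0 = k ∧ Sing A F l then F_T one2 c A F l else 0) +
        (if k < l ∧ i0 = l ∧ Sing A F k then F_T one2 c A F k else 0)) := by
    intro i0 hi0
    rw [← sum_congr rfl (fun k hk => sum_congr rfl (fun l hl => key i0 hi0 k hk l hl))]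
    rw [sum_congr rfl (fun k _ => sum_comm), sum_comm]
    refine sum_congr rfl ?_
    intro p _
    by_cases hvp : v p
    · simp only [if_pos hvp]
      rw [hX, mul_sum]
      refine sum_congr rfl ?_
      intro k _
      rw [mul_sum]
    · simp only [if_neg hvp, sum_const_zero]
  rw [sum_congr rfl hstep]
  -- count
  have hcount : ∀ k ∈ A, ∀ l ∈ A,
      ∑ i0 ∈ A, ((if k < l ∧ i0 = k ∧ Sing A F l then F_T one2 c A F l else 0) +
        (if k < l ∧ i0 = l ∧ Sing A F k then F_T one2 c A F k else 0)) =
      (if k < l ∧ Sing A F l then F_T one2 c A F l else 0) +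
      (if k < l ∧ Sing A F k then F_T one2 c A F k else 0) := by
    intro k hk l hl
    rw [sum_add_distrib]
    congr 1
    · rw [sum_eq_single_of_mem k hk]
      · simp
      · intro b _ hb
        rw [if_neg (fun h => hb h.2.1)]
    · rw [sum_eq_single_of_mem l hl]
      · simp
      · intro b _ hb
        rw [if_neg (fun h => hb h.2.1)]
  rw [sum_comm, sum_congr rfl (fun k _ => sum_comm),
    sum_congr rfl (fun k hk => sum_congr rfl (fun l hl => hcount k hk l hl))]
  simp only [sum_add_distrib]
  rw [sum_comm (s := A) (t := A)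
    (f := fun k l => if k < l ∧ Sing A F l then F_T one2 c A F l else 0), ← sum_add_distrib]
  unfold HF
  rw [mul_sum]
  refine sum_congr rfl ?_
  intro k hk
  by_cases hS : Sing A F k
  · rw [if_pos hS]
    simp only [hS, and_true]
    rw [← sum_add_distrib]
    have : ∀ x ∈ A, ((if x < k then F_T one2 c A F k else 0) +
        (if k < x then F_T one2 c A F k else 0)) =
        F_T one2 c A F k - (if x = k then F_T one2 c A F k else 0) := by
      intro x _
      rcases lt_trichotomy x k with h | h | h
      · rw [if_pos h, if_neg (not_lt.2 h.le), if_neg (ne_of_lt h)]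
        ring
      · rw [if_neg (by omega), if_neg (by omega), if_pos h]
        ring
      · rw [if_neg (not_lt.2 h.le), if_pos h, if_neg (ne_of_gt h)]
        ring
    rw [sum_congr rfl this, sum_sub_distrib, sum_const, sum_ite_eq' A k, if_pos hk, nsmul_eq_mul,
      F_T]
    ring
  · rw [if_neg hS]
    simp [hS]

end Pool.Agent.Helper40.NF
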