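import Mathlib

/-!
# Fermionic operators on finitely supported functions on finite sets

`C α = Finset α →₀ ℚ`; `E p` erases `p` with sign, `W p` inserts `p` with sign; the canonical
anticommutation relations.
-/

set_option autoImplicit false

namespace Pool.Agent.Helper21.NN

open Finset

variable {α : Type*} [LinearOrder α]

/-- chains -/
abbrev C (α : Type*) := Finset α →₀ ℚ

/-- the sign of `p` in `F`: parity of the number of smaller elements -/
def sg (F : Finset α) (p : α) : ℚ := (-1) ^ (F.filter (· < p)).card

lemma sg_mul_self (F : Finset α) (p : α) : sg F p * sg F p = 1 := by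
  unfold sg
  rw [← pow_add, ← two_mul, pow_mul]
  norm_num

lemma sg_ne_zero (F : Finset α) (p : α) : sg F p ≠ 0 := by
  intro h
  have := sg_mul_self F p
  rw [h] at this
  norm_num at this

lemma sg_erase_self (F : Finset α) (p : α) : sg (F.erase p) p = sg F p := by
  unfold sg
  congr 2
  ext q
  simp only [mem_filter, mem_erase]
  constructor
  · rintro ⟨⟨_, h⟩, h'⟩
    exact ⟨h, h'⟩
  · rintro ⟨h, h'⟩
    exact ⟨⟨ne_of_lt h', h⟩, h'⟩

lemma sg_insert_self (F : Finset α) (p : α) : sg (insert p F) p = sg F p := by
  unfold sg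
  congr 2
  ext q
  simp only [mem_filter, mem_insert]
  constructor
  · rintro ⟨h | h, h'⟩
    · exact absurd h' (by rw [h]; exact lt_irrefl _)
    · exact ⟨h, h'⟩
  · rintro ⟨h, h'⟩
    exact ⟨Or.inr h, h'⟩

lemma sg_insert_lt (F : Finset α) {p q : α} (hq : q ∉ F) (h : q < p) :
    sg (insert q F) p = - sg F p := by
  unfold sg
  rw [filter_insert, if_pos h, card_insert_of_notMem (by simp [hq]), pow_succ]
  ring

lemma sg_insert_gt (F : Finset α) {p q : α} (h : p < q) :
    sg (insert q F) p = sg F p := by
  unfold sg
  rw [filter_insert, if_neg (not_lt.2 h.le)]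

lemma sg_erase_lt (F : Finset α) {p q : α} (hq : q ∈ F) (h : q < p) :
    sg (F.erase q) p = - sg F p := by
  have := sg_insert_lt (F.erase q) (p := p) (q := q) (by simp) h
  rw [insert_erase hq] at this
  rw [this, neg_neg]

lemma sg_erase_gt (F : Finset α) {p q : α} (h : p < q) :
    sg (F.erase q) p = sg F p := by
  by_cases hq : q ∈ F
  · have := sg_insert_gt (F.erase q) (p := p) (q := q) h
    rw [insert_erase hq] at this
    exact this.symm
  · rw [erase_eq_of_notMem hq]

/-- erase `p` -/
noncomputable def E (p : α) : C α →ₗ[ℚ] C α :=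
  Finsupp.lsum ℚ (fun F => if p ∈ F then (sg F p) • Finsupp.lsingle (F.erase p) else 0)

/-- insert `p` -/
noncomputable def W (p : α) : C α →ₗ[ℚ] C α :=
  Finsupp.lsum ℚ (fun F => if p ∈ F then 0 else (sg F p) • Finsupp.lsingle (insert p F))

lemma E_single (p : α) (F : Finset α) (c : ℚ) :
    E p (Finsupp.single F c) = if p ∈ F then Finsupp.single (F.erase p) (sg F p * c) else 0 := by
  unfold E
  rw [Finsupp.lsum_single]
  split_ifs <;> simp

lemma W_single (p : α) (F : Finset α) (c : ℚ) :
    W p (Finsupp.single F c) = if p ∈ F then 0 else Finsupp.single (insert p F) (sg F p * c) := by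
  unfold W
  rw [Finsupp.lsum_single]
  split_ifs <;> simp

lemma E_single_mem {p : α} {F : Finset α} (h : p ∈ F) (c : ℚ) :
    E p (Finsupp.single F c) = Finsupp.single (F.erase p) (sg F p * c) := by
  rw [E_single, if_pos h]

lemma E_single_notMem {p : α} {F : Finset α} (h : p ∉ F) (c : ℚ) :
    E p (Finsupp.single F c) = 0 := by
  rw [E_single, if_neg h]

lemma W_single_mem {p : α} {F : Finset α} (h : p ∈ F) (c : ℚ) :
    W p (Finsupp.single F c) = 0 := by
  rw [W_single, if_pos h]

lemma W_single_notMem {p : α} {F : Finset α} (h : p ∉ F) (c : ℚ) :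
    W p (Finsupp.single F c) = Finsupp.single (insert p F) (sg F p * c) := by
  rw [W_single, if_neg h]

/-- `E p E q + E q E p = 0` -/
theorem E_anti (p q : α) : E p ∘ₗ E q + E q ∘ₗ E p = 0 := by
  ext F : 1
  apply LinearMap.ext_ring
  simp only [LinearMap.comp_apply, LinearMap.add_apply, Finsupp.lsingle_apply,
    LinearMap.zero_apply]
  by_cases hpq : p = q
  · subst hpq
    by_cases hp : p ∈ F
    · rw [E_single_mem hp, E_single_notMem (by simp)]
      simp
    · rw [E_single_notMem hp, map_zero]
      simp
  by_cases hp : p ∈ F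
  · by_cases hq : q ∈ F
    · rw [E_single_mem hp, E_single_mem hq, E_single_mem (by simp [hp, hpq]),
        E_single_mem (by simp [hq, Ne.symm hpq]), erase_right_comm, ← Finsupp.single_add]
      rw [show sg (F.erase q) p * (sg F q * 1) + sg (F.erase p) q * (sg F p * 1) = 0 from ?_]
      · simp
      · rcases lt_or_gt_of_ne hpq with h | h
        · rw [sg_erase_gt F h, sg_erase_lt F hp h]
          ring
        · rw [sg_erase_gt F h, sg_erase_lt F hq h]
          ring
    · rw [E_single_mem hp, E_single_notMem hq, map_zero, E_single_notMem (by simp [hq])]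
      simp
  · by_cases hq : q ∈ F
    · rw [E_single_mem hq, E_single_notMem hp, map_zero, E_single_notMem (by simp [hp])]
      simp
    · rw [E_single_notMem hq, E_single_notMem hp, map_zero, map_zero]
      simp

/-- `W p W q + W q W p = 0` -/
theorem W_anti (p q : α) : W p ∘ₗ W q + W q ∘ₗ W p = 0 := by
  ext F : 1
  apply LinearMap.ext_ring
  simp only [LinearMap.comp_apply, LinearMap.add_apply, Finsupp.lsingle_apply,
    LinearMap.zero_apply]
  by_cases hpq : p = q
  · subst hpq
    by_cases hp : p ∈ F
    · rw [W_single_mem hp, map_zero]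
      simp
    · rw [W_single_notMem hp, W_single_mem (by simp)]
      simp
  by_cases hp : p ∈ F
  · by_cases hq : q ∈ F
    · rw [W_single_mem hp, W_single_mem hq, map_zero, map_zero]
      simp
    · rw [W_single_mem hp, W_single_notMem hq, map_zero, W_single_mem (by simp [hp])]
      simp
  · by_cases hq : q ∈ F
    · rw [W_single_mem hq, W_single_notMem hp, map_zero, W_single_mem (by simp [hq])]
      simp
    · rw [W_single_notMem hq, W_single_notMem hp, W_single_notMem (by simp [hp, hpq]),
        W_single_notMem (by simp [hq, Ne.symm hpq]), insert_comm, ← Finsupp.single_add]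
      rw [show sg (insert q F) p * (sg F q * 1) + sg (insert p F) q * (sg F p * 1) = 0 from ?_]
      · simp
      · rcases lt_or_gt_of_ne hpq with h | h
        · rw [sg_insert_gt F h, sg_insert_lt F hp h]
          ring
        · rw [sg_insert_gt F h, sg_insert_lt F hq h]
          ring

/-- `E p W q + W q E p = 0` for `p ≠ q` -/
theorem EW_anti {p q : α} (hpq : p ≠ q) : E p ∘ₗ W q + W q ∘ₗ E p = 0 := by
  ext F : 1
  apply LinearMap.ext_ring
  simp only [LinearMap.comp_apply, LinearMap.add_apply, Finsupp.lsingle_apply,
    LinearMap.zero_apply]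
  by_cases hq : q ∈ F
  · by_cases hp : p ∈ F
    · rw [W_single_mem hq, E_single_mem hp, map_zero,
        W_single_mem (by simp [hq, Ne.symm hpq])]
      simp
    · rw [W_single_mem hq, E_single_notMem hp, map_zero, map_zero]
      simp
  · by_cases hp : p ∈ F
    · rw [W_single_notMem hq, E_single_mem hp, E_single_mem (by simp [hp]),
        W_single_notMem (by simp [hq]), erase_insert_of_ne (Ne.symm hpq), ← Finsupp.single_add]
      rw [show sg (insert q F) p * (sg F q * 1) + sg (F.erase p) q * (sg F p * 1) = 0 from ?_]
      · simp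
      · rcases lt_or_gt_of_ne hpq with h | h
        · rw [sg_insert_gt F h, sg_erase_lt F hp h]
          ring
        · rw [sg_insert_lt F hq h, sg_erase_gt F h]
          ring
    · rw [W_single_notMem hq, E_single_notMem hp, map_zero,
        E_single_notMem (by simp [hp, hpq])]
      simp

/-- `E p W p + W p E p = 1` -/
theorem EW_self (p : α) : E p ∘ₗ W p + W p ∘ₗ E p = LinearMap.id := by
  ext F : 1
  apply LinearMap.ext_ring
  simp only [LinearMap.comp_apply, LinearMap.add_apply, Finsupp.lsingle_apply,
    LinearMap.id_comp]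
  by_cases hp : p ∈ F
  · rw [W_single_mem hp, E_single_mem hp, map_zero, W_single_notMem (by simp), insert_erase hp,
      sg_erase_self, ← mul_assoc, sg_mul_self]
    simp
  · rw [W_single_notMem hp, E_single_notMem hp, map_zero, E_single_mem (by simp),
      erase_insert hp, sg_insert_self, ← mul_assoc, sg_mul_self]
    simp

end Pool.Agent.Helper21.NN
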