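import Mathlib
import Pool.Agent.Helper40.NF.St

/-!
# Kernel lemma (module K, MP_42cd19_co)
-/

set_option autoImplicit false

namespace Pool.Agent.Helper40.NF

open Finset

/-! ## general facts on `sup` -/

lemma K_sup_lin {α M : Type} [AddCommGroup M] [Module ℚ M] {P : Finset α → Prop} {z : Ch α}
    (hz : z ∈ sup P) (L : Ch α →ₗ[ℚ] M) (S : Submodule ℚ M)
    (h : ∀ F, P F → L (Finsupp.single F 1) ∈ S) : L z ∈ S := by
  have : sup P ≤ S.comap L := by
    rw [sup, Finsupp.supported_eq_span_single, Submodule.span_le]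
    rintro _ ⟨F, hF, rfl⟩
    exact h F hF
  exact this hz

lemma K_sup_mono {α : Type} {P Q : Finset α → Prop} {z : Ch α} (hz : z ∈ sup P)
    (h : ∀ F, P F → Q F) : z ∈ sup Q :=
  Finsupp.supported_mono (fun F hF => h F hF) hz

lemma K_single {α : Type} {P : Finset α → Prop} {F : Finset α} (h : P F) (c : ℚ) :
    (Finsupp.single F c : Ch α) ∈ sup P :=
  Finsupp.single_mem_supported ℚ c h

lemma K_zero {α : Type} {P : Finset α → Prop} {z : Ch α} (hz : z ∈ sup P) (h : ∀ F, ¬ P F) :
    z = 0 := by
  ext F
  by_contra hne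
  exact h F (hz (by simpa using hne))

lemma K_disj {α : Type} {P Q : Finset α → Prop} {z : Ch α} (hz : z ∈ sup P) (hz' : z ∈ sup Q)
    (h : ∀ F, P F → ¬ Q F) : z = 0 := by
  ext F
  by_contra hne
  exact h F (hz (by simpa using hne)) (hz' (by simpa using hne))

lemma K_bdA_single (A : Finset ℕ) (F : Finset Pt) :
    bdA A (Finsupp.single F 1) = bdF (Prod.fst : Pt → ℕ) (fun F => LV A (im F)) F := by
  simp [bdA, bd, Finsupp.linearCombination_single]

lemma K_bd0_single (F : Finset Pt) : bd0 (Finsupp.single F 1) = bd0F F := by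
  simp [bd0, Finsupp.linearCombination_single]

lemma K_Hj_single (j : ℕ) (F : Finset Pt) : Hj j (Finsupp.single F 1) = HjF j F := by
  simp [Hj, Finsupp.linearCombination_single]

lemma K_prj_single (F : Finset Pt) : prj (Finsupp.single F 1) = prjF F := by
  simp [prj, Finsupp.linearCombination_single]

lemma K_im_erase (F : Finset Pt) (p : Pt) : im (F.erase p) ⊆ im F :=
  image_subset_image (erase_subset _ _)

/-- the cell classes -/
def KP (A : Finset ℕ) (K N a s : ℕ) (F : Finset Pt) : Prop :=
  Mono F ∧ GV A K (im F) ∧ (∀ p ∈ F, p.1 < N) ∧ F.card = a ∧ (im F).card = s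

lemma K_MC_of_KP {A : Finset ℕ} {K N a s : ℕ} {F : Finset Pt} (h : KP A K N a s F) :
    MC (GV A K) N F :=
  ⟨h.2.2.1, h.1.1, h.1.2, h.2.1⟩

lemma K_KP_of_MC {A : Finset ℕ} {K N : ℕ} {F : Finset Pt} (h : MC (GV A K) N F) :
    KP A K N F.card (im F).card F :=
  ⟨⟨h.2.1, h.2.2.1⟩, h.2.2.2, h.1, rfl, rfl⟩

lemma K_mono_erase {F : Finset Pt} (h : Mono F) (p : Pt) : Mono (F.erase p) :=
  ⟨fun x hx y hy => h.1 x (mem_of_mem_erase hx) y (mem_of_mem_erase hy),
    fun x hx y hy => h.2 x (mem_of_mem_erase hx) y (mem_of_mem_erase hy)⟩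

/-- `bd0` preserves the image and lowers the number of slots by one -/
lemma K_bd0_mem {A : Finset ℕ} {K N a s : ℕ} {z : Ch Pt} (hz : z ∈ sup (KP A K N (a + 1) s)) :
    bd0 z ∈ sup (KP A K N a s) := by
  refine K_sup_lin hz _ _ ?_
  intro F hF
  rw [K_bd0_single, bd0F]
  refine Submodule.sum_mem _ ?_
  intro p hp
  split_ifs with h
  · refine K_single ?_ _
    refine ⟨K_mono_erase hF.1 p, by rw [h]; exact hF.2.1,
      fun q hq => hF.2.2.1 q (mem_of_mem_erase hq), ?_, by rw [h]; exact hF.2.2.2.2⟩
    rw [card_erase_of_mem hp, hF.2.2.2.1]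
    rfl
  · exact Submodule.zero_mem _

/-- `bd0 ∘ bd0 = 0` -/
lemma K_bd0_bd0 (hBB : StBB) {z : Ch Pt} (hz : z ∈ sup Mono) : bd0 (bd0 z) = 0 := by
  have : (bd0 ∘ₗ bd0) z ∈ (⊥ : Submodule ℚ (Ch Pt)) := by
    refine K_sup_lin hz _ _ ?_
    intro F hF
    rw [LinearMap.comp_apply, Submodule.mem_bot]
    set V : Finset Pt → Prop := fun G => im G = im F with hV
    have hconv : Conv V := by
      intro X Y Z hYZ hZX hY hX
      simp only [hV] at hY hX ⊢
      apply Subset.antisymm
      · rw [← hX]
        exact image_subset_image hZX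
      · rw [← hY]
        exact image_subset_image hYZ
    have key := hBB Pt ℕ (Prod.fst : Pt → ℕ) V hconv (Finsupp.single F 1)
      (K_single ⟨rfl, fun p hp q hq hpq => hF.2 p hp q hq hpq⟩ _)
    -- `bd0` agrees with `bd fst V` on chains with image `im F`
    have hag : ∀ w : Ch Pt, w ∈ sup V → bd0 w = bd (Prod.fst : Pt → ℕ) V w := by
      intro w hw
      have : (bd0 - bd (Prod.fst : Pt → ℕ) V) w ∈ (⊥ : Submodule ℚ (Ch Pt)) := by
        refine K_sup_lin hw _ _ ?_
        intro G hG
        rw [Submodule.mem_bot, LinearMap.sub_apply, K_bd0_single, bd,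
          Finsupp.linearCombination_single, one_smul, sub_eq_zero, bd0F, bdF]
        refine sum_congr rfl ?_
        intro p _
        have : (im (G.erase p) = im G) ↔ V (G.erase p) := by
          simp only [hV] at hG ⊢
          rw [hG]
        by_cases hh : V (G.erase p)
        · rw [if_pos hh, if_pos (this.2 hh)]
        · rw [if_neg hh, if_neg (fun h => hh (this.1 h))]
      rw [Submodule.mem_bot, LinearMap.sub_apply, sub_eq_zero] at this
      exact this
    have h1 : (Finsupp.single F 1 : Ch Pt) ∈ sup V := K_single (P := V) (F := F) rfl _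
    have h2 : bd0 (Finsupp.single F 1) ∈ sup V := by
      rw [K_bd0_single, bd0F]
      refine Submodule.sum_mem _ ?_
      intro p _
      split_ifs with h
      · exact K_single (P := V) h _
      · exact Submodule.zero_mem _
    rw [hag _ h2, hag _ h1]
    exact key
  rwa [Submodule.mem_bot, LinearMap.comp_apply] at this

/-- the rest of the boundary lowers the number of values -/
lemma K_rest {A : Finset ℕ} {K N a s : ℕ} {z : Ch Pt} (hz : z ∈ sup (KP A K N (a + 1) s)) :
    bdA A z - bd0 z ∈
      sup (fun F => MC (GV A K) N F ∧ F.card = a ∧ (im F).card + 1 ≤ s) := by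
  have : (bdA A - bd0) z ∈
      sup (fun F => MC (GV A K) N F ∧ F.card = a ∧ (im F).card + 1 ≤ s) := by
    refine K_sup_lin hz _ _ ?_
    intro F hF
    rw [LinearMap.sub_apply, K_bdA_single, K_bd0_single, bdF, bd0F, ← sum_sub_distrib]
    refine Submodule.sum_mem _ ?_
    intro p hp
    have hc : (F.erase p).card = a := by
      rw [card_erase_of_mem hp, hF.2.2.2.1]
      rfl
    by_cases h0 : im (F.erase p) = im F
    · have h1 : LV A (im (F.erase p)) := by
        rw [h0]
        exact hF.2.1.1
      rw [if_pos h0, if_pos h1, sub_self]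
      exact Submodule.zero_mem _
    · rw [if_neg h0, sub_zero]
      split_ifs with h1
      · refine K_single ⟨⟨?_, ?_, ?_, h1, ?_⟩, hc, ?_⟩ _
        · exact fun q hq => hF.2.2.1 q (mem_of_mem_erase hq)
        · exact (K_mono_erase hF.1 p).1
        · exact (K_mono_erase hF.1 p).2
        · exact fun v hv => hF.2.1.2 v (K_im_erase F p hv)
        · have := card_lt_card ((K_im_erase F p).ssubset_of_ne h0)
          rw [hF.2.2.2.2] at this
          omega
      · exact Submodule.zero_mem _
  exact this

/-- packed cells -/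
lemma K_packed {N : ℕ} {F : Finset Pt} (hM : Mono F) (hN : ∀ p ∈ F, p.1 < N) (hQ : Qj N F) :
    F = pkF (im F) ∧ F.card = (im F).card := by
  -- every value is used once
  have hval : ∀ p ∈ F, ∀ q ∈ F, q.2 = p.2 → q = p := by
    intro p hp
    obtain ⟨p', hp', h1, h2⟩ := hQ p.1 (hN p hp) ⟨p, hp, le_rfl⟩
    have : p' = p := hM.2 p' hp' p hp h1
    rw [this] at h2
    exact h2
  have hinj : Set.InjOn (Prod.snd : Pt → Val) (F : Set Pt) := by
    intro p hp q hq hpq
    exact hval q hq p hp hpq
  have hcard : (im F).card = F.card := card_image_of_injOn hinj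
  have hlt : ∀ p ∈ F, ∀ q ∈ F, (q.1 < p.1 ↔ q.2 < p.2) := by
    intro p hp q hq
    constructor
    · intro h
      refine lt_of_le_of_ne (hM.1 q hq p hp h) ?_
      intro he
      rw [hval p hp q hq he] at h
      exact lt_irrefl _ h
    · intro h
      by_contra hle
      rcases lt_or_eq_of_le (not_lt.1 hle) with h' | h'
      · exact absurd (hM.1 p hp q hq h') (not_le.2 h)
      · rw [hM.2 p hp q hq h'] at h
        exact lt_irrefl _ h
  -- the slot of `p` is the number of smaller values
  have hslot : ∀ p ∈ F, p.1 = ((im F).filter (· < p.2)).card := by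
    intro p hp
    have h1 : ((im F).filter (· < p.2)) = (F.filter (fun q => q.1 < p.1)).image Prod.snd := by
      ext v
      simp only [im, mem_filter, mem_image]
      constructor
      · rintro ⟨⟨q, hq, rfl⟩, h⟩
        exact ⟨q, ⟨hq, (hlt p hp q hq).2 h⟩, rfl⟩
      · rintro ⟨q, ⟨hq, h⟩, rfl⟩
        exact ⟨⟨q, hq, rfl⟩, (hlt p hp q hq).1 h⟩
    have h2 : (F.filter (fun q => q.1 < p.1)).image Prod.fst = range p.1 := by
      ext t
      simp only [mem_image, mem_filter, mem_range]
      constructor
      · rintro ⟨q, ⟨_, h⟩, rfl⟩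
        exact h
      · intro ht
        obtain ⟨q, hq, h3, _⟩ := hQ t (ht.trans (hN p hp)) ⟨p, hp, ht.le⟩
        exact ⟨q, ⟨hq, by omega⟩, h3⟩
    rw [h1, card_image_of_injOn (fun x hx y hy hxy => hinj (mem_of_mem_filter x hx)
      (mem_of_mem_filter y hy) hxy)]
    have h3 := card_image_of_injOn (s := F.filter (fun q => q.1 < p.1))
      (f := (Prod.fst : Pt → ℕ)) (fun x hx y hy hxy => hM.2 x (mem_of_mem_filter x hx) y
        (mem_of_mem_filter y hy) hxy)
    rw [h2, card_range] at h3
    exact h3
  refine ⟨?_, hcard.symm⟩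
  apply eq_of_subset_of_card_le
  · intro p hp
    simp only [pkF, mem_image]
    refine ⟨p.2, mem_image_of_mem _ hp, ?_⟩
    rw [← hslot p hp]
  · rw [← hcard]
    exact card_image_le

/-- chains with a fixed image: exactness -/
lemma K_exact0 (hBB : StBB) (hPi : StPi) (hHs : StHs) (hHj : StHj) {A : Finset ℕ}
    {K N a s : ℕ} {z : Ch Pt} (hz : z ∈ sup (KP A K N a s)) (h0 : bd0 z = 0)
    (hp : prj z = 0) : ∃ w ∈ sup (KP A K N (a + 1) s), bd0 w = z := by
  -- support of the homotopies
  have hH : ∀ (j : ℕ) (u : Ch Pt), u ∈ sup (KP A K N a s) → Hj j u ∈ sup (KP A K N (a + 1) s) := by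
    intro j u hu
    refine K_sup_lin hu _ _ ?_
    intro F hF
    rw [K_Hj_single]
    refine K_sup_mono (hHs j F hF.1) ?_
    rintro G ⟨h1, h2, h3, h4⟩
    refine ⟨h1, by rw [h2]; exact hF.2.1, ?_, by rw [h3, hF.2.2.2.1], by rw [h2]; exact hF.2.2.2.2⟩
    intro p hp
    obtain ⟨q, hq, hpq⟩ := h4 p hp
    exact lt_of_le_of_lt hpq (hF.2.2.1 q hq)
  have key : ∀ j : ℕ, ∃ w ∈ sup (KP A K N (a + 1) s), ∃ u ∈ sup (fun F => KP A K N a s F ∧ Qj j F),
      z = bd0 w + u := by
    intro j
    induction j with
    | zero =>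
      refine ⟨0, Submodule.zero_mem _, z, K_sup_mono hz ?_, by simp⟩
      intro F hF
      exact ⟨hF, fun t ht => absurd ht (Nat.not_lt_zero t)⟩
    | succ j ih =>
      obtain ⟨w, hw, u, hu, he⟩ := ih
      have hu1 : u ∈ sup (KP A K N a s) := K_sup_mono hu (fun F hF => hF.1)
      have hbu : bd0 u = 0 := by
        have h1 : bd0 (bd0 w) = 0 := K_bd0_bd0 hBB (K_sup_mono hw (fun F hF => hF.1))
        have h2 := congrArg bd0 he
        rw [map_add, h0, h1, zero_add] at h2
        exact h2.symm
      have hstep : ((LinearMap.id : Ch Pt →ₗ[ℚ] Ch Pt) - bd0 ∘ₗ Hj j - Hj j ∘ₗ bd0) u ∈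
          sup (fun F => KP A K N a s F ∧ Qj (j + 1) F) := by
        refine K_sup_lin hu _ _ ?_
        intro F hF
        rw [LinearMap.sub_apply, LinearMap.sub_apply, LinearMap.comp_apply, LinearMap.comp_apply,
          LinearMap.id_apply, K_Hj_single, K_bd0_single]
        refine K_sup_mono (hHj j F hF.1.1 hF.2) ?_
        rintro G ⟨h1, h2, h3, h4, h5⟩
        refine ⟨⟨h1, by rw [h2]; exact hF.1.2.1, ?_, by rw [h3, hF.1.2.2.2.1],
          by rw [h2]; exact hF.1.2.2.2.2⟩, h5⟩
        intro p hp
        obtain ⟨q, hq, hpq⟩ := h4 p hp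
        exact lt_of_le_of_lt hpq (hF.1.2.2.1 q hq)
      rw [LinearMap.sub_apply, LinearMap.sub_apply, LinearMap.comp_apply, LinearMap.comp_apply,
        LinearMap.id_apply, hbu, map_zero, sub_zero] at hstep
      refine ⟨w + Hj j u, Submodule.add_mem _ hw (hH j u hu1), _, hstep, ?_⟩
      rw [he, map_add]
      abel
  obtain ⟨w, hw, u, hu, he⟩ := key N
  refine ⟨w, hw, ?_⟩
  -- `u = 0`
  have hpack : u = pk (prj u) := by
    have : ((LinearMap.id : Ch Pt →ₗ[ℚ] Ch Pt) - pk ∘ₗ prj) u ∈
        (⊥ : Submodule ℚ (Ch Pt)) := by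
      refine K_sup_lin hu _ _ ?_
      intro F hF
      obtain ⟨h1, h2⟩ := K_packed hF.1.1 hF.1.2.2.1 hF.2
      rw [Submodule.mem_bot, LinearMap.sub_apply, LinearMap.comp_apply, LinearMap.id_apply,
        K_prj_single, prjF, if_pos h2.symm, pk, Finsupp.lmapDomain_apply,
        Finsupp.mapDomain_single, ← h1, sub_self]
    rw [Submodule.mem_bot, LinearMap.sub_apply, sub_eq_zero] at this
    exact this
  have hprj0 : prj u = 0 := by
    by_cases has : a = s
    · -- `prj (bd0 w) = 0`
      have hw0 : prj (bd0 w) = 0 := by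
        have h1 : prj (bdA A w) = bdG A (prj w) :=
          hPi.1 A K N w (K_sup_mono hw (fun F hF => K_MC_of_KP hF))
        have h2 : prj w = 0 := by
          have : prj w ∈ (⊥ : Submodule ℚ (Ch Val)) := by
            refine K_sup_lin hw _ _ ?_
            intro F hF
            rw [Submodule.mem_bot, K_prj_single, prjF, if_neg]
            rw [hF.2.2.2.1, hF.2.2.2.2]
            omega
          rwa [Submodule.mem_bot] at this
        have h3 : prj (bdA A w - bd0 w) = 0 := by
          have : prj (bdA A w - bd0 w) ∈ (⊥ : Submodule ℚ (Ch Val)) := by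
            refine K_sup_lin (K_rest hw) _ _ ?_
            rintro F ⟨_, hF2, hF3⟩
            rw [Submodule.mem_bot, K_prj_single, prjF, if_neg]
            omega
          rwa [Submodule.mem_bot] at this
        rw [h2, map_zero] at h1
        rw [map_sub, h1, zero_sub, neg_eq_zero] at h3
        exact h3
      have := congrArg prj he
      rw [map_add, hp, hw0, zero_add] at this
      exact this.symm
    · have : u = 0 := by
        refine K_zero hu ?_
        rintro F ⟨hF, hQ⟩
        obtain ⟨_, h2⟩ := K_packed hF.1 hF.2.2.1 hQ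
        rw [hF.2.2.2.1, hF.2.2.2.2] at h2
        exact has h2
      rw [this, map_zero]
  rw [hprj0, map_zero] at hpack
  rw [he, hpack, add_zero]

open Classical in
/-- kernel lemma -/
theorem pf_K (hBB : StBB) (hSup : StSup) (hConv : StConv) (hPi : StPi) (hHs : StHs)
    (hHj : StHj) : StK := by
  intro A K N a
  -- induction on the number of values
  have main : ∀ (r : ℕ) (z : Ch Pt),
      z ∈ sup (fun F => (MC (GV A K) N F ∧ F.card = a) ∧ (im F).card ≤ r) → bdA A z = 0 →
      prj z = 0 → ∃ y ∈ supc (MC (GV A K) N) (a + 1), bdA A y = z := by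
    intro r
    induction r with
    | zero =>
      intro z hz _ hp
      refine ⟨0, Submodule.zero_mem _, ?_⟩
      rw [map_zero]
      -- all cells are empty
      have hz0 : z ∈ sup (fun F : Finset Pt => F = ∅) := by
        refine K_sup_mono hz ?_
        rintro F ⟨_, h⟩
        have : im F = ∅ := card_eq_zero.1 (by omega)
        exact image_eq_empty.1 this
      have hzz : z = Finsupp.single ∅ (z ∅) := by
        ext F
        rw [Finsupp.single_apply]
        split_ifs with h
        · rw [← h]
        · by_contra hne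
          exact h (hz0 (by simpa using hne) : F = ∅).symm
      rw [hzz] at hp
      have h1 : prj (Finsupp.single (∅ : Finset Pt) (z ∅)) =
          Finsupp.single (∅ : Finset Val) (z ∅) := by
        rw [prj, Finsupp.linearCombination_single, prjF, if_pos (by simp [im])]
        simp [im]
      rw [h1, Finsupp.single_eq_zero] at hp
      rw [hzz, hp, Finsupp.single_zero]
    | succ r ih =>
      intro z hz hb hp
      by_cases har : a ≤ r
      · refine ih z (K_sup_mono hz ?_) hb hp
        rintro F ⟨⟨h1, h2⟩, _⟩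
        refine ⟨⟨h1, h2⟩, ?_⟩
        have : (im F).card ≤ F.card := card_image_le
        omega
      have har' : r + 1 ≤ a := by omega
      obtain ⟨b, rfl⟩ : ∃ b, a = b + 1 := ⟨a - 1, by omega⟩
      -- split
      set z1 : Ch Pt := z.filter (fun F => (im F).card = r + 1) with hz1
      set z2 : Ch Pt := z.filter (fun F => ¬ (im F).card = r + 1) with hz2
      have hsum : z1 + z2 = z := Finsupp.filter_pos_add_filter_neg z _
      have hz1m : z1 ∈ sup (KP A K N (b + 1) (r + 1)) := by
        intro F hF
        rw [Finset.mem_coe, Finsupp.mem_support_iff, hz1, Finsupp.filter_apply] at hF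
        split_ifs at hF with h
        · obtain ⟨⟨h1, h2⟩, _⟩ := hz (show F ∈ (z.support : Set _) by simpa using hF)
          have := K_KP_of_MC h1
          rw [h2, h] at this
          exact this
        · exact absurd rfl hF
      have hz2m : z2 ∈ sup (fun F => (MC (GV A K) N F ∧ F.card = b + 1) ∧ (im F).card ≤ r) := by
        intro F hF
        rw [Finset.mem_coe, Finsupp.mem_support_iff, hz2] at hF
        by_cases h : (im F).card = r + 1
        · rw [Finsupp.filter_apply_neg (fun F : Finset Pt => ¬ (im F).card = r + 1) _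
            (not_not.2 h)] at hF
          exact absurd rfl hF
        · rw [Finsupp.filter_apply_pos (fun F : Finset Pt => ¬ (im F).card = r + 1) _ h] at hF
          obtain ⟨h1, h2⟩ := hz (show F ∈ (z.support : Set _) by simpa using hF)
          exact ⟨h1, by omega⟩
      -- boundary of `z2`
      have hbz2 : bdA A z2 ∈
          sup (fun F => (MC (GV A K) N F ∧ F.card = b) ∧ (im F).card ≤ r) := by
        refine K_sup_lin hz2m _ _ ?_
        rintro F ⟨⟨h1, h2⟩, h3⟩
        rw [K_bdA_single, bdF]
        refine Submodule.sum_mem _ ?_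
        intro p hp
        split_ifs with h
        · refine K_single ⟨⟨hConv.2.2.1 A K N F h1 p hp h, ?_⟩, ?_⟩ _
          · rw [card_erase_of_mem hp, h2]
            rfl
          · exact (card_le_card (K_im_erase F p)).trans h3
        · exact Submodule.zero_mem _
      have hb0 : bd0 z1 = 0 := by
        have h1 : bd0 z1 ∈ sup (KP A K N b (r + 1)) := K_bd0_mem hz1m
        have h2 := K_rest hz1m
        have h3 : bd0 z1 ∈ sup (fun F : Finset Pt => (im F).card ≤ r) := by
          have h4 : bd0 z1 = -(bdA A z1 - bd0 z1) - bdA A z2 := by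
            have : bdA A z1 + bdA A z2 = 0 := by rw [← map_add, hsum, hb]
            have h5 : bdA A z1 = - bdA A z2 := eq_neg_of_add_eq_zero_left this
            rw [h5]
            abel
          rw [h4]
          refine Submodule.sub_mem _ (Submodule.neg_mem _ (K_sup_mono h2 ?_))
            (K_sup_mono hbz2 (fun F hF => hF.2))
          rintro F ⟨_, _, h⟩
          omega
        refine K_disj h1 h3 ?_
        intro F hF h
        have := hF.2.2.2.2
        omega
      have hprj2 : ∀ u : Ch Pt, u ∈ sup (fun F : Finset Pt =>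
          (MC (GV A K) N F ∧ F.card = b + 1) ∧ (im F).card ≤ r) → prj u = 0 := by
        intro u hu
        have : prj u ∈ (⊥ : Submodule ℚ (Ch Val)) := by
          refine K_sup_lin hu _ _ ?_
          rintro F ⟨⟨_, h2⟩, h3⟩
          rw [Submodule.mem_bot, K_prj_single, prjF, if_neg]
          omega
        rwa [Submodule.mem_bot] at this
      have hp1 : prj z1 = 0 := by
        have := congrArg prj hsum
        rw [map_add, hprj2 z2 hz2m, add_zero, hp] at this
        exact this
      obtain ⟨w, hw, hwz⟩ := K_exact0 hBB hPi hHs hHj hz1m hb0 hp1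
      have hwM : w ∈ supc (MC (GV A K) N) (b + 1 + 1) :=
        K_sup_mono hw (fun F hF => ⟨K_MC_of_KP hF, hF.2.2.2.1⟩)
      have hnew : z - bdA A w ∈
          sup (fun F => (MC (GV A K) N F ∧ F.card = b + 1) ∧ (im F).card ≤ r) := by
        have h1 : z - bdA A w = z2 - (bdA A w - bd0 w) := by
          rw [hwz, ← hsum]
          abel
        rw [h1]
        refine Submodule.sub_mem _ hz2m (K_sup_mono (K_rest hw) ?_)
        rintro F ⟨h2, h3, h4⟩
        exact ⟨⟨h2, h3⟩, by omega⟩
      have hcyc : bdA A (z - bdA A w) = 0 := by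
        rw [map_sub, hb, zero_sub, neg_eq_zero]
        refine hBB Pt ℕ (Prod.fst : Pt → ℕ) (fun F => LV A (im F)) (hConv.2.1 A) w
          (K_sup_mono hw ?_)
        intro F hF
        exact ⟨hF.2.1.1, fun p hp q hq hpq => hF.1.2 p hp q hq hpq⟩
      obtain ⟨y, hy, hyz⟩ := ih (z - bdA A w) hnew hcyc (hprj2 _ hnew)
      refine ⟨y + w, Submodule.add_mem _ hy hwM, ?_⟩
      rw [map_add, hyz]
      abel
  intro z hz hb hp
  refine main a z (K_sup_mono hz ?_) hb hp
  rintro F ⟨h1, h2⟩
  refine ⟨⟨h1, h2⟩, ?_⟩
  have : (im F).card ≤ F.card := card_image_le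
  omega

end Pool.Agent.Helper40.NF
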